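import Pool.Agent.X119.CD.Stm

set_option linter.unusedSimpArgs false

/-! Part POS of project CD (helper119). -/

namespace Pool.Agent.X263.CD

open Polynomial Pool.Agent.X119.CD

noncomputable def G (p : ℕ) : ℝ[X] := ∑ i ∈ Finset.range (p - 1), X ^ i

lemma coeff_G (p i : ℕ) : (G p).coeff i = if i < p - 1 then 1 else 0 := by
  unfold G
  simp [finset_sum_coeff, coeff_X_pow]

noncomputable def V (p q : ℕ) : ℝ[X] :=
  C ((p * q : ℕ) + 1 - p - q : ℝ) * X ^ (p * q + p + q - 1) +
    X ^ (p * q + q) * G p - X ^ (p * q) * G p - X ^ q * G p + G p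
    - C ((p * q : ℕ) - q : ℝ) * X ^ (p * q + q - 1) - C ((p * q : ℕ) + 1 - p : ℝ) * X ^ (p * q + p - 1)
    + C ((p * q : ℕ) : ℝ) * X ^ (p * q - 1) + C (p + q - 1 : ℝ) * X ^ (p + q - 1)
    - C (q : ℝ) * X ^ (q - 1) - C (p - 1 : ℝ) * X ^ (p - 1)

def gam (p q i : ℕ) : ℕ :=
  if i < p - 1 then 0 else if i < p + q - 1 then 1 else if i < p * q then 2 else
    if i < p * q + q then 3 else 4

lemma coeff_V (p q i : ℕ) : (V p q).coeff i =
    ((p * q : ℕ) + 1 - p - q : ℝ) * (if i = p * q + p + q - 1 then 1 else 0) +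
    (if p * q + q ≤ i then (if i - (p * q + q) < p - 1 then 1 else 0) else 0) -
    (if p * q ≤ i then (if i - p * q < p - 1 then 1 else 0) else 0) -
    (if q ≤ i then (if i - q < p - 1 then 1 else 0) else 0) +
    (if i < p - 1 then 1 else 0) -
    ((p * q : ℕ) - q : ℝ) * (if i = p * q + q - 1 then 1 else 0) -
    ((p * q : ℕ) + 1 - p : ℝ) * (if i = p * q + p - 1 then 1 else 0) +
    ((p * q : ℕ) : ℝ) * (if i = p * q - 1 then 1 else 0) +
    (p + q - 1 : ℝ) * (if i = p + q - 1 then 1 else 0) -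
    (q : ℝ) * (if i = q - 1 then 1 else 0) -
    (p - 1 : ℝ) * (if i = p - 1 then 1 else 0) := by
  unfold V
  simp only [coeff_add, coeff_sub, coeff_C_mul, coeff_X_pow, coeff_X_pow_mul', coeff_G]

lemma sign_V (p q : ℕ) (hp : 3 ≤ p) (hpq : p < q) (i : ℕ) :
    0 ≤ (-1 : ℝ) ^ (gam p q i) * (V p q).coeff i := by
  have h1 : 3 * q ≤ p * q := Nat.mul_le_mul_right q hp
  have hpR : (3 : ℝ) ≤ p := by exact_mod_cast hp
  have hqR : (p : ℝ) + 1 ≤ q := by exact_mod_cast hpq
  have hnR : (3 : ℝ) * q ≤ (p * q : ℕ) := by exact_mod_cast h1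
  rw [coeff_V]
  generalize hn : p * q = n at *
  unfold gam
  by_cases c1 : i < p - 1
  · have e1 : ¬ i = n + p + q - 1 := by omega
    have e2 : ¬ n + q ≤ i := by omega
    have e3 : ¬ n ≤ i := by omega
    have e4 : ¬ q ≤ i := by omega
    have e5 : ¬ i = n + q - 1 := by omega
    have e6 : ¬ i = n + p - 1 := by omega
    have e7 : ¬ i = n - 1 := by omega
    have e8 : ¬ i = p + q - 1 := by omega
    have e9 : ¬ i = q - 1 := by omega
    have e10 : ¬ i = p - 1 := by omega
    simp [c1, e1, e2, e3, e4, e5, e6, e7, e8, e9, e10, hn]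
  by_cases c2 : i < p + q - 1
  · have e1 : ¬ i = n + p + q - 1 := by omega
    have e2 : ¬ n + q ≤ i := by omega
    have e3 : ¬ n ≤ i := by omega
    have e5 : ¬ i = n + q - 1 := by omega
    have e6 : ¬ i = n + p - 1 := by omega
    have e7 : ¬ i = n - 1 := by omega
    have e8 : ¬ i = p + q - 1 := by omega
    simp only [c1, c2, e1, e2, e3, e5, e6, e7, e8, hn, if_true, if_false, pow_one, mul_zero,
      add_zero, sub_zero, zero_sub, zero_add]
    have k1 : (0 : ℝ) ≤ (if q ≤ i then (if i - q < p - 1 then 1 else 0) else 0) := by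
      split_ifs <;> norm_num
    have k2 : (0 : ℝ) ≤ q * (if i = q - 1 then 1 else 0) := by
      split_ifs <;> simp <;> linarith
    have k3 : (0 : ℝ) ≤ (p - 1) * (if i = p - 1 then 1 else 0) := by
      split_ifs <;> simp <;> linarith
    linarith
  by_cases c3 : i < n
  · have e1 : ¬ i = n + p + q - 1 := by omega
    have e2 : ¬ n + q ≤ i := by omega
    have e3 : ¬ n ≤ i := by omega
    have e4 : ¬ (i - q < p - 1) := by omega
    have e5 : ¬ i = n + q - 1 := by omega
    have e6 : ¬ i = n + p - 1 := by omega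
    have e9 : ¬ i = q - 1 := by omega
    have e10 : ¬ i = p - 1 := by omega
    simp only [c1, c2, c3, e1, e2, e3, e4, e5, e6, e9, e10, hn, if_true, if_false, mul_zero,
      add_zero, sub_zero, zero_sub, zero_add, ite_self]
    have k2 : (0 : ℝ) ≤ n * (if i = n - 1 then 1 else 0) := by
      split_ifs <;> simp
    have k3 : (0 : ℝ) ≤ (p + q - 1) * (if i = p + q - 1 then 1 else 0) := by
      split_ifs <;> simp <;> linarith
    have : (-1 : ℝ) ^ 2 = 1 := by norm_num
    rw [this]; linarith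
  by_cases c4 : i < n + q
  · have e1 : ¬ i = n + p + q - 1 := by omega
    have e2 : ¬ n + q ≤ i := by omega
    have e4 : ¬ (i - q < p - 1) := by omega
    have e7 : ¬ i = n - 1 := by omega
    have e8 : ¬ i = p + q - 1 := by omega
    have e9 : ¬ i = q - 1 := by omega
    have e10 : ¬ i = p - 1 := by omega
    simp only [c1, c2, c3, c4, e1, e2, e4, e7, e8, e9, e10, hn, if_true, if_false, mul_zero,
      add_zero, sub_zero, zero_sub, zero_add, ite_self]
    have k1 : (0 : ℝ) ≤ (if n ≤ i then (if i - n < p - 1 then 1 else 0) else 0) := by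
      split_ifs <;> norm_num
    have k2 : (0 : ℝ) ≤ (n - q) * (if i = n + q - 1 then 1 else 0) := by
      split_ifs <;> simp <;> linarith
    have k3 : (0 : ℝ) ≤ (n + 1 - p) * (if i = n + p - 1 then 1 else 0) := by
      split_ifs <;> simp <;> linarith
    have : (-1 : ℝ) ^ 3 = -1 := by norm_num
    rw [this]; linarith
  · have e3 : ¬ (i - n < p - 1) := by omega
    have e4 : ¬ (i - q < p - 1) := by omega
    have e5 : ¬ i = n + q - 1 := by omega
    have e6 : ¬ i = n + p - 1 := by omega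
    have e7 : ¬ i = n - 1 := by omega
    have e8 : ¬ i = p + q - 1 := by omega
    have e9 : ¬ i = q - 1 := by omega
    have e10 : ¬ i = p - 1 := by omega
    simp only [c1, c2, c3, c4, e3, e4, e5, e6, e7, e8, e9, e10, hn, if_true, if_false, mul_zero,
      add_zero, sub_zero, zero_sub, zero_add, ite_self]
    have k1 : (0 : ℝ) ≤ (if n + q ≤ i then (if i - (n + q) < p - 1 then 1 else 0) else 0) := by
      split_ifs <;> norm_num
    have k2 : (0 : ℝ) ≤ (n + 1 - p - q) * (if i = n + p + q - 1 then 1 else 0) := by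
      split_ifs <;> simp <;> linarith
    have : (-1 : ℝ) ^ 4 = 1 := by norm_num
    rw [this]; linarith

lemma gam_mono (p q : ℕ) (hp : 3 ≤ p) (hpq : p < q) : Monotone (gam p q) := by
  have h1 : 3 * q ≤ p * q := Nat.mul_le_mul_right q hp
  intro i j hij
  unfold gam
  generalize p * q = n at *
  split_ifs <;> omega

lemma gam_le (p q i : ℕ) : gam p q i ≤ 4 := by
  unfold gam; split_ifs <;> omega

lemma V_id (p q : ℕ) (hp : 3 ≤ p) (hpq : p < q) : (X - 1) * V p q =
    derivative ((X ^ (p * q) - 1) * (X - 1)) * ((X ^ p - 1) * (X ^ q - 1)) -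
      ((X ^ (p * q) - 1) * (X - 1)) * derivative ((X ^ p - 1) * (X ^ q - 1)) := by
  have h1 : 3 * q ≤ p * q := Nat.mul_le_mul_right q hp
  have hg : (X - 1) * G p = X ^ (p - 1) - 1 := by
    unfold G; rw [mul_comm]; exact geom_sum_mul X (p - 1)
  obtain ⟨p', rfl⟩ : ∃ p', p = p' + 1 := ⟨p - 1, by omega⟩
  obtain ⟨q', rfl⟩ : ∃ q', q = q' + 1 := ⟨q - 1, by omega⟩
  obtain ⟨n', hn'⟩ : ∃ n', (p' + 1) * (q' + 1) = n' + 1 := ⟨(p' + 1) * (q' + 1) - 1, by omega⟩
  have e1 : n' + 1 + (p' + 1) + (q' + 1) - 1 = n' + p' + q' + 2 := by omega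
  have e2 : n' + 1 + (q' + 1) - 1 = n' + q' + 1 := by omega
  have e3 : n' + 1 + (p' + 1) - 1 = n' + p' + 1 := by omega
  have e4 : p' + 1 + (q' + 1) - 1 = p' + q' + 1 := by omega
  simp only [Nat.add_sub_cancel] at hg
  unfold V
  rw [hn', e1, e2, e3, e4]
  simp only [Nat.add_sub_cancel, derivative_mul, derivative_sub, derivative_X_pow, derivative_one,
    derivative_X, sub_zero]
  simp only [map_add, map_sub, map_one, Nat.cast_add, Nat.cast_one, pow_add, pow_one, map_natCast,
    Nat.add_sub_cancel]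
  linear_combination ((X ^ n' * X ^ q' * X ^ 2 - X ^ n' * X - X ^ q' * X + 1 : ℝ[X])) * hg

theorem t_POS : S_SV → S_KEY → S_POS := by
  intro hSV hKEY p q hp hq hop hoq hpq
  have hp3 : 3 ≤ p := by
    have := hp.two_le
    rcases hop with ⟨k, hk⟩
    omega
  have hV1 : (V p q).signVariations ≤ 4 := by
    have := hSV (V p q) (gam p q) (gam_mono p q hp3 hpq) (sign_V p q hp3 hpq)
    have h2 := gam_le p q (V p q).natDegree
    omega
  have hkey := hKEY p q hp hq (ne_of_lt hpq)
  set Φ := cyclotomic (p * q) ℝ with hΦ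
  have hX1 : (X - 1 : ℝ[X]) ≠ 0 := by
    have := X_sub_C_ne_zero (1 : ℝ); simpa using this
  -- B = (X-1)^2 B1
  set B1 : ℝ[X] := (∑ i ∈ Finset.range p, X ^ i) * (∑ i ∈ Finset.range q, X ^ i) with hB1
  have hB : ((X ^ p - 1) * (X ^ q - 1) : ℝ[X]) = (X - 1) ^ 2 * B1 := by
    rw [hB1, ← geom_sum_mul, ← geom_sum_mul]; ring
  have hder := congrArg derivative hkey
  rw [derivative_mul] at hder
  have hW : derivative Φ * ((X ^ p - 1) * (X ^ q - 1)) ^ 2 = (X - 1) * V p q := by
    rw [V_id p q hp3 hpq, ← hder, ← hkey]; ring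
  have hVeq : V p q = (X - 1) ^ 3 * B1 ^ 2 * derivative Φ := by
    apply mul_left_cancel₀ hX1
    rw [← hW, hB]; ring
  have hdeg : Φ.natDegree ≠ 0 := by
    rw [hΦ, natDegree_cyclotomic, Nat.totient_mul ((Nat.coprime_primes hp hq).2 (ne_of_lt hpq)),
      Nat.totient_prime hp, Nat.totient_prime hq]
    have : 0 < (p - 1) * (q - 1) := Nat.mul_pos (by omega) (by omega)
    omega
  have hd0 : derivative Φ ≠ 0 := by
    intro h
    exact hdeg (natDegree_eq_zero_of_derivative_eq_zero h)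
  have hB10 : B1 ≠ 0 := by
    intro h
    rw [h, mul_zero] at hB
    have h1 : (X ^ p - 1 : ℝ[X]) ≠ 0 := (monic_X_pow_sub_C (1 : ℝ) (by omega : p ≠ 0)).ne_zero
    have h2 : (X ^ q - 1 : ℝ[X]) ≠ 0 := (monic_X_pow_sub_C (1 : ℝ) (by omega : q ≠ 0)).ne_zero
    exact (mul_ne_zero h1 h2) hB
  have hV0 : (X - 1) ^ 3 * B1 ^ 2 * derivative Φ ≠ 0 :=
    mul_ne_zero (mul_ne_zero (pow_ne_zero _ hX1) (pow_ne_zero _ hB10)) hd0
  have hr : (V p q).roots = 3 • (X - 1 : ℝ[X]).roots + (B1 ^ 2).roots + (derivative Φ).roots := by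
    rw [hVeq, roots_mul hV0, roots_mul (mul_ne_zero (pow_ne_zero _ hX1) (pow_ne_zero _ hB10)),
      roots_pow]
  have hle := roots_countP_pos_le_signVariations (V p q)
  have hr1 : (X - 1 : ℝ[X]).roots = {1} := by
    have := roots_X_sub_C (1 : ℝ); simpa using this
  rw [hr, hr1, Multiset.countP_add, Multiset.countP_add, Multiset.countP_nsmul] at hle
  have : Multiset.countP (fun x : ℝ => 0 < x) ({1} : Multiset ℝ) = 1 := by
    rw [← Multiset.cons_zero, Multiset.countP_cons_of_pos (p := fun x : ℝ => 0 < x) _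
      (by norm_num), Multiset.countP_zero]
  rw [this] at hle
  omega

end Pool.Agent.X263.CD
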